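import Mathlib
import Pool.Agent.Q230.Besi4

/-!
# A `C^1` Besicovitch cylindrical transformation over a minimal rotation of the 2-torus

The rotation vector is `(2^(1/3), 2^(2/3))`. With `η = 2^(1/3) - 1` write
`η ^ k = a k + b k * 2^(1/3) + c k * 2^(2/3)` with integers `a k, b k, c k`. The function is
`φ x = ∑ k (cos 2π(b k x₁ + c k x₂) - cos 2π(b k x₁ + c k x₂ + η ^ k))`.
-/

set_option autoImplicit false

open Set Filter Topology

namespace Pool.Agent.Results.MP_742cc2_an.CubicRotation

/-- The cylindrical transformation `(x, t) ↦ (x + α, t + φ x)`, a bijection of `𝕋² × ℝ`. -/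
def cyl (α : UnitAddTorus (Fin 2)) (φ : UnitAddTorus (Fin 2) → ℝ) :
    Equiv.Perm (UnitAddTorus (Fin 2) × ℝ) where
  toFun z := (z.1 + α, z.2 + φ z.1)
  invFun z := (z.1 - α, z.2 - φ (z.1 - α))
  left_inv z := by simp
  right_inv z := by simp

/-- The orbit of a point, under the iterates with all integer exponents. -/
def orbit (α : UnitAddTorus (Fin 2)) (φ : UnitAddTorus (Fin 2) → ℝ)
    (z : UnitAddTorus (Fin 2) × ℝ) : Set (UnitAddTorus (Fin 2) × ℝ) :=
  range fun n : ℤ => (cyl α φ ^ n) z

/-- **There is a `C^1` Besicovitch cylindrical transformation over a minimal rotation of the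
two-dimensional torus.** -/
theorem result : ∃ (α : UnitAddTorus (Fin 2)) (φ : UnitAddTorus (Fin 2) → ℝ),
    -- the rotation is minimal
    (∀ x, Dense (range fun n : ℤ => x + n • α)) ∧
    -- the function is continuously differentiable
    ContDiff ℝ 1 (fun v : Fin 2 → ℝ => φ (fun i => (v i : UnitAddCircle))) ∧
    -- some orbit is dense
    (∃ z, Dense (orbit α φ z)) ∧
    -- some orbit is discrete (and closed; its second coordinate tends to `+∞` in both directions)
    (∃ z, DiscreteTopology (orbit α φ z) ∧ IsClosed (orbit α φ z) ∧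
      Tendsto (fun n : ℤ => ((cyl α φ ^ n) z).2) cofinite atTop) := by
  have h1 := Q230.Besi.dense_orbit Q230.Besi.locConn Q230.Besi.ph_cont Q230.Besi.minimal
    Q230.Besi.tends
  have h2 := Q230.Besi.discrete_orbit Q230.Besi.ph_cont Q230.Besi.tends
  exact ⟨Q230.Besi.al, Q230.Besi.ph, Q230.Besi.minimal, Q230.Besi.ph_contDiff, h1,
    ⟨(0, 0), h2.2, h2.1, Q230.Besi.tends⟩⟩

end Pool.Agent.Results.MP_742cc2_an.CubicRotation
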